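import Pool.Agent.Helper26.LU.Goals

/-!
# Packet LU-T10 (MP_db6300_gt, project of helper26): test functionals
-/

namespace Pool.Agent.Helper49.LU

open MeasureTheory Matrix Real Filter Topology
open Pool.Agent.Helper26.LU

instance : SecondCountableTopology M3 :=
  inferInstanceAs (SecondCountableTopology (Fin 3 → Fin 3 → ℝ))

theorem Rot_cont : Continuous Rot := by
  refine continuous_matrix fun i j => ?_
  fin_cases i <;> fin_cases j <;> simp [Rot] <;> fun_prop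

theorem Sm_cont (j : Fin 4) : Continuous (fun z : ℝ × ℝ => Sm j z.1 z.2) := by
  unfold Sm
  exact (((Rot_cont.comp continuous_fst).mul continuous_const).mul
    (Rot_cont.comp continuous_snd)).mul continuous_const

theorem Ti_cont {N : ℕ} (a : Idx N → ℝ) (k : ℕ) : Continuous (fun R : M3 => Ti a R k) := by
  induction k with
  | zero => exact continuous_const
  | succ k ih =>
    simp only [Ti_succ]
    have h1 : ∀ j, Continuous (fun R : M3 => R *ᵥ e j) := fun j =>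
      continuous_id.matrix_mulVec continuous_const
    have h2 : Continuous (fun R : M3 => ∑ j, ev a (R *ᵥ e j + Ti a R k) • (R *ᵥ e j)) :=
      continuous_finsetSum _ fun j _ => ((ev_continuous a).comp ((h1 j).add ih)).smul (h1 j)
    exact h2.const_smul (3 / 8 : ℝ)

theorem yv_cont {N : ℕ} (M : ℕ) (a : Idx N → ℝ) (j : Fin 4) :
    Continuous (fun R : M3 => yv M a R j) :=
  (continuous_id.matrix_mulVec continuous_const).add (Ti_cont a M)

/-- The uniform measure on the torus. -/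
noncomputable def κ : Measure ℝ := volume.restrict (Set.Ioc 0 (2 * π))

instance : IsFiniteMeasure κ := by
  unfold κ
  infer_instance

theorem κ_univ : κ.real Set.univ = 2 * π := by
  unfold κ
  rw [measureReal_restrict_apply MeasurableSet.univ, Set.univ_inter, Real.volume_real_Ioc,
    max_eq_left] <;> have := Real.pi_pos <;> linarith

theorem tavg_eq {g : ℝ × ℝ → ℝ} {B : ℝ} (hg : Continuous g) (hB : ∀ z, |g z| ≤ B) :
    tavg (fun x y => g (x, y)) = (∫ z, g z ∂(κ.prod κ)) / (4 * π ^ 2) := by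
  have hpi := Real.pi_pos
  have hi : Integrable g (κ.prod κ) :=
    Integrable.of_bound hg.aestronglyMeasurable B (Eventually.of_forall fun z => by
      simpa using hB z)
  rw [integral_prod g hi, tavg, intervalIntegral.integral_of_le (by linarith)]
  simp only [intervalIntegral.integral_of_le (by linarith : (0 : ℝ) ≤ 2 * π)]
  rfl

theorem int_mul {μ : Measure ↥SO3} (hμ : Haar3 μ) {f : ↥SO3 → ℝ} (hf : Continuous f)
    (S : ↥SO3) : ∫ R, f (R * S) ∂μ = ∫ R, f R ∂μ := by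
  conv_rhs => rw [← hμ.inv S]
  rw [integral_map (continuous_mul_const S).measurable.aemeasurable hf.aestronglyMeasurable]

/-- Averaging over the torus of right translates. -/
theorem int_tavg {μ : Measure ↥SO3} (hμ : Haar3 μ) {f : ↥SO3 → ℝ} (hf : Continuous f) {B : ℝ}
    (hB : ∀ R, |f R| ≤ B) {S : ℝ × ℝ → ↥SO3} (hS : Continuous S) :
    Integrable (fun R => tavg (fun x y => f (R * S (x, y)))) μ ∧
      ∫ R, tavg (fun x y => f (R * S (x, y))) ∂μ = ∫ R, f R ∂μ := by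
  have hp := hμ.prob
  have hpi := Real.pi_pos
  have hG : Continuous (fun w : ↥SO3 × (ℝ × ℝ) => f (w.1 * S w.2)) :=
    hf.comp (continuous_fst.mul (hS.comp continuous_snd))
  have hi : Integrable (fun w : ↥SO3 × (ℝ × ℝ) => f (w.1 * S w.2)) (μ.prod (κ.prod κ)) :=
    Integrable.of_bound hG.aestronglyMeasurable B (Eventually.of_forall fun z => by
      simpa using hB _)
  have e1 : ∀ R : ↥SO3, tavg (fun x y => f (R * S (x, y)))
      = (∫ z, f (R * S z) ∂(κ.prod κ)) / (4 * π ^ 2) := by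
    intro R
    exact tavg_eq (g := fun z => f (R * S z)) (B := B)
      (hf.comp (continuous_const.mul hS)) (fun z => hB _)
  simp only [e1]
  have hi2 : Integrable (fun R => ∫ z, f (R * S z) ∂(κ.prod κ)) μ := hi.integral_prod_left
  refine ⟨hi2.div_const _, ?_⟩
  rw [integral_div, integral_integral_swap hi]
  have e2 : ∀ z : ℝ × ℝ, ∫ R, f (R * S z) ∂μ = ∫ R, f R ∂μ := fun z => int_mul hμ hf _
  simp only [e2]
  rw [integral_const, ← Set.univ_prod_univ, measureReal_prod_prod, κ_univ, smul_eq_mul]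
  field_simp
  ring

/-- The integrand. -/
noncomputable def fj {N : ℕ} (M : ℕ) (a : Idx N → ℝ) (h : V → ℝ) (n : ℕ) (p q : Fin n → Fin 3)
    (j : Fin 4) (R : ↥SO3) : ℝ := (∏ i, R.1 (p i) (q i)) * h (yh M a R.1 j)

theorem prod_le {R : M3} (hR : R ∈ SO3) (n : ℕ) (p q : Fin n → Fin 3) :
    |∏ i, R (p i) (q i)| ≤ 1 := by
  rw [Finset.abs_prod]
  exact Finset.prod_le_one (fun i _ => abs_nonneg _) fun i _ => SO3_entry_le hR _ _

theorem fj_cont {N : ℕ} {M : ℕ} {a : Idx N → ℝ} {h : V → ℝ} (hh : ContinuousOn h sph)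
    {j : Fin 4} (h0 : ∀ R ∈ SO3, yv M a R j ≠ 0) (n : ℕ) (p q : Fin n → Fin 3) :
    Continuous (fj M a h n p q j) := by
  have h1 : Continuous (fun R : ↥SO3 => h (proj (yv M a R.1 j))) :=
    cont_comp hh ((yv_cont M a j).comp continuous_subtype_val) fun R => h0 R.1 R.2
  have h2 : Continuous (fun R : ↥SO3 => ∏ i, R.1 (p i) (q i)) :=
    continuous_finsetProd _ fun i _ => continuous_subtype_val.matrix_elem _ _
  exact h2.mul h1

theorem fj_le {N : ℕ} {M : ℕ} {a : Idx N → ℝ} {h : V → ℝ} {E : ℝ} (hE : ∀ u ∈ sph, |h u| ≤ E)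
    {j : Fin 4} (h0 : ∀ R ∈ SO3, yv M a R j ≠ 0) (n : ℕ) (p q : Fin n → Fin 3) (R : ↥SO3) :
    |fj M a h n p q j R| ≤ E := by
  have h1 := prod_le R.2 n p q
  have h2 := hE _ (proj_sph (h0 R.1 R.2))
  rw [fj, abs_mul]
  calc |∏ i, R.1 (p i) (q i)| * |h (yh M a R.1 j)| ≤ 1 * E :=
        mul_le_mul h1 h2 (abs_nonneg _) zero_le_one
    _ = E := one_mul E

/-- The main estimate for one vertex. -/
theorem one_vertex {μ : Measure ↥SO3} (hμ : Haar3 μ) {N M : ℕ} {a : Idx N → ℝ} {h : V → ℝ}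
    {E ε : ℝ} (hh : ContinuousOn h sph) (hE : ∀ u ∈ sph, |h u| ≤ E) {j : Fin 4} (n : ℕ)
    (p q : Fin n → Fin 3) (h0 : ∀ R ∈ SO3, yv M a R j ≠ 0)
    (h0' : ∀ R ∈ SO3, yv M (0 : Idx N → ℝ) R j ≠ 0)
    (hd : ∀ Q ∈ SO3, |tavg (fun x y => hB N j n p q ((a, Q), x, y)
        * h (proj (FB N M j ((a, Q), x, y))))
        - tavg (fun x y => hB N j n p q ((0, Q), x, y)
        * h (proj (FB N M j ((0, Q), x, y))))| ≤ ε) :
    |∫ R, fj M a h n p q j R ∂μ - ∫ R, fj M (0 : Idx N → ℝ) h n p q j R ∂μ| ≤ ε := by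
  have hp := hμ.prob
  have hS : Continuous (fun z : ℝ × ℝ => (⟨Sm j z.1 z.2, Sm_SO3 j z.1 z.2⟩ : ↥SO3)) :=
    Continuous.subtype_mk (Sm_cont j) _
  obtain ⟨i1, e1⟩ := int_tavg hμ (fj_cont hh h0 n p q) (fj_le hE h0 n p q) hS
  obtain ⟨i2, e2⟩ := int_tavg hμ (fj_cont hh h0' n p q) (fj_le hE h0' n p q) hS
  rw [← e1, ← e2, ← integral_sub i1 i2, ← Real.norm_eq_abs]
  have hb : ∀ R : ↥SO3, ‖tavg (fun x y => fj M a h n p q j
        (R * (⟨Sm j (x, y).1 (x, y).2, Sm_SO3 j (x, y).1 (x, y).2⟩ : ↥SO3)))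
        - tavg (fun x y => fj M (0 : Idx N → ℝ) h n p q j
        (R * (⟨Sm j (x, y).1 (x, y).2, Sm_SO3 j (x, y).1 (x, y).2⟩ : ↥SO3)))‖ ≤ ε :=
    fun R => hd R.1 R.2
  refine (norm_integral_le_of_norm_le_const (Eventually.of_forall hb)).trans ?_
  simp

theorem gT10 (hTU : G_TU) (hTB : G_TB) (hM2 : G_M2) : G_T10 := by
  intro μ hμ N M η hη
  have hp := hμ.prob
  obtain ⟨C₂, hC₂, h2⟩ := hM2 μ hμ N
  -- uniform `δ`
  have key : ∀ i : (Σ n : Fin (N + 1), (Fin n → Fin 3) × (Fin n → Fin 3)) × Fin 4,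
      ∃ δ : ℝ, 0 < δ ∧ ∀ a : Idx N → ℝ, ‖a‖ ≤ δ → ∀ Q ∈ SO3,
        ∀ (g : V → ℝ) (E : ℝ), ContinuousOn g sph → (∀ u ∈ sph, |g u| ≤ E) →
      |tavg (fun x y => hB N i.2 i.1.1 i.1.2.1 i.1.2.2 ((a, Q), x, y)
          * g (proj (FB N M i.2 ((a, Q), x, y))))
        - tavg (fun x y => hB N i.2 i.1.1 i.1.2.1 i.1.2.2 ((0, Q), x, y)
          * g (proj (FB N M i.2 ((0, Q), x, y))))| ≤ η / 4 * E := by
    intro i
    obtain ⟨δ, hδ, h⟩ := hTU N (FB N M i.2) (hB N i.2 i.1.1 i.1.2.1 i.1.2.2)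
      (hTB N M i.2 i.1.1 i.1.2.1 i.1.2.2) (η / 4) (by linarith)
    refine ⟨δ, hδ, fun a ha Q hQ g E hg hE => ?_⟩
    exact (h a ha Q hQ Q hQ (fun i j => by simp [hδ.le])).2.2.2 g E hg hE
  choose δ hδ hmain using key
  obtain ⟨i0, hi0⟩ := Finite.exists_min δ
  obtain ⟨C₁, hC₁, δ₁, hδ₁, hnear⟩ := yv_near N M
  refine ⟨4 * C₂, by positivity, min (δ i0) δ₁, lt_min (hδ i0) hδ₁, ?_⟩
  intro a ha h E τ hh hE hτ n hn p q
  have ha1 : ‖a‖ ≤ δ₁ := ha.trans (min_le_right _ _)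
  have ne : ∀ b : Idx N → ℝ, ‖b‖ ≤ δ₁ → ∀ j : Fin 4, ∀ R ∈ SO3, yv M b R j ≠ 0 := by
    intro b hb j R hR h0
    have := (hnear b hb R hR j).2.1
    rw [h0] at this
    simp [nrm] at this
    norm_num at this
  have z0 : ‖(0 : Idx N → ℝ)‖ ≤ δ₁ := by simpa using hδ₁.le
  have bound : ∀ j : Fin 4, |∫ R, fj M a h n p q j R ∂μ| ≤ η / 4 * E + C₂ * τ := by
    intro j
    have e1 := one_vertex hμ (ε := η / 4 * E) hh hE n p q (ne a ha1 j) (ne 0 z0 j)
      (fun Q hQ => by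
        have := hmain (⟨⟨n, by omega⟩, p, q⟩, j) a
          ((ha.trans (min_le_left _ _)).trans (hi0 _)) Q hQ h E hh hE
        exact this)
    have e2 : ∫ R, fj M (0 : Idx N → ℝ) h n p q j R ∂μ
        = ∫ R : ↥SO3, (∏ i, R.1 (p i) (q i)) * h (R.1 *ᵥ e j) ∂μ := by
      refine integral_congr_ae (Eventually.of_forall fun R => ?_)
      simp only [fj, yh_zero M R.2]
    have e3 := h2 h τ hh hτ n hn p q (e j) (e_sph j)
    rw [← e2] at e3
    have := abs_sub_abs_le_abs_sub (∫ R, fj M a h n p q j R ∂μ)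
      (∫ R, fj M (0 : Idx N → ℝ) h n p q j R ∂μ)
    linarith
  have hsum : ∫ R : ↥SO3, (∏ i, R.1 (p i) (q i)) * ∑ j, h (yh M a R.1 j) ∂μ
      = ∑ j, ∫ R, fj M a h n p q j R ∂μ := by
    rw [← integral_finsetSum]
    · refine integral_congr_ae (Eventually.of_forall fun R => ?_)
      simp only [fj, Finset.mul_sum]
    · intro j _
      exact Integrable.of_bound (fj_cont hh (ne a ha1 j) n p q).aestronglyMeasurable E
        (Eventually.of_forall fun R => by simpa using fj_le hE (ne a ha1 j) n p q R)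
  rw [hsum]
  refine (Finset.abs_sum_le_sum_abs _ _).trans ?_
  calc ∑ j, |∫ R, fj M a h n p q j R ∂μ| ≤ ∑ _j : Fin 4, (η / 4 * E + C₂ * τ) :=
        Finset.sum_le_sum fun j _ => bound j
    _ = η * E + 4 * C₂ * τ := by simp; ring



end Pool.Agent.Helper49.LU
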